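import Pool.Agent.L0h86.JQ.Stm
import Pool.Agent.L0h81.JS.LAWG

/-!
# JQ/LAWS: the joint law for both signs, in all residue classes

This follows `Pool/Agent/L0h81/JS/LAWG.lean`. The translation has the exception `m = 1`.
-/

set_option autoImplicit false
set_option linter.unusedSectionVars false
set_option linter.unusedVariables false
set_option maxHeartbeats 1000000

open scoped Classical

namespace Pool.Agent.L0h2.JQ

open Finset Filter
open scoped Topology
open Pool.Agent.L0h74.EV (SE)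
open Pool.Agent.L0h74.AP (Cp Cg GS GSg card_low tendsto_div_nat)
open Pool.Agent.L0h86.JR (Sr sqf nR)
open Pool.Agent.L0h86.JS
open Pool.Agent.L0h86.JQ
open Pool.Agent.L0h57.JR (ClassFn HtFn ratio sqf_sq sqf_dvd sqf_mul sqf_inj GS_card flt cnt cnt_nat
  ht_natAbs classFn_of natAbs_sgm cop_of)
open Pool.Agent.L0h81.JS (TG TG_cls)

lemma cmp0 (s : Finset ℕ) (P Q : ℕ → Prop) [DecidablePred P] [DecidablePred Q]
    (h : ∀ m ∈ s, m ≠ 1 → (P m ↔ Q m)) :
    ((s.filter P).card : ℝ) ≤ ((s.filter Q).card : ℝ) + 1 := by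
  have h1 : s.filter P ⊆ insert 1 (s.filter Q) := by
    intro m hm
    rw [mem_filter] at hm
    rw [mem_insert, mem_filter]
    by_cases h1 : m = 1
    · exact Or.inl h1
    · exact Or.inr ⟨hm.1, (h m hm.1 h1).1 hm.2⟩
  have h2 := (card_le_card h1).trans (card_insert_le _ _)
  exact_mod_cast h2

/-- two conditions which agree for `m ≠ 1` -/
lemma cmp1 (s : Finset ℕ) (P Q : ℕ → Prop) [DecidablePred P] [DecidablePred Q]
    (h : ∀ m ∈ s, m ≠ 1 → (P m ↔ Q m)) :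
    |((s.filter P).card : ℝ) - ((s.filter Q).card : ℝ)| ≤ 1 := by
  rw [abs_le]
  have h1 := cmp0 s P Q h
  have h2 := cmp0 s Q P fun m hm h1 => (h m hm h1).symm
  constructor <;> linarith

/-- the translation in all cases -/
theorem trans (hTRS : S_TRS) {b : Bool} {u a g m : ℕ} (hc : Cp u a) (h56 : 56 ∣ u)
    (hg : Squarefree g) (hgu : ∀ p, p.Prime → p ∣ g → p ∣ u) (hm : Squarefree m)
    (hma : m % u = a) (h1 : m ≠ 1) :
    GdG (flS b g a) (sysS b g a) m.primeFactors ↔ CrE (sgn b * ((g * m : ℕ) : ℤ)) := by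
  have hcop : Nat.Coprime m u := by
    rw [Nat.coprime_iff_gcd_eq_one, Nat.gcd_comm, Nat.gcd_rec, hma]
    exact hc.cop
  have hsq : Squarefree (g * m) := by
    rw [Nat.squarefree_mul_iff]
    exact ⟨cop_of hgu hcop, hg, hm⟩
  have h2 : 1 < g * m := by
    have hg0 : 0 < g := Nat.pos_of_ne_zero hg.ne_zero
    have hm0 : 0 < m := Nat.pos_of_ne_zero hm.ne_zero
    have h3 : 1 < m := by omega
    exact lt_of_lt_of_le h3 (Nat.le_mul_of_pos_left _ hg0)
  rw [hTRS.1 b u a g m hc h56 hg hgu hm hma, hTRS.2 b (g * m) hsq h2]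

/-- **The joint law of the numbers `g m`.** -/
theorem base (hDS : S_DS) (hHYS : S_HYS) (hTRS : S_TRS) {u a : ℕ} (hc : Cp u a)
    (h56 : 56 ∣ u) {t : ℕ} (b : Fin t → Bool) (g : Fin t → ℕ) (hsq : ∀ l, Squarefree (g l))
    (hu : ∀ l p, p.Prime → p ∣ g l → p ∣ u) (hinj : Function.Injective g) (β : Fin t → Bool) :
    ∀ ε : ℝ, 0 < ε → ∀ᶠ Y : ℕ in atTop,
      |(((GS u a Y).filter fun m => ∀ l, (CrE (sgn (b l) * ((g l * m : ℕ) : ℤ)) ↔ β l = true)).card : ℝ) -
        amS (fun l => sgS (b l)) β * ((GS u a Y).card : ℝ)| ≤ ε * Y := by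
  obtain ⟨n, cl, x, hy⟩ := hHYS u a hc h56 t b g hsq hu hinj
  have h4 : 4 ∣ u := (by norm_num : 4 ∣ 56).trans h56
  intro ε hε
  have hlim : ∀ᶠ Y : ℕ in atTop, (2 / ε : ℝ) ≤ Y :=
    tendsto_natCast_atTop_atTop.eventually_ge_atTop _
  filter_upwards [hDS t n _ _ _ u a cl x hy β (ε / 2) (by positivity), hlim] with Y hY hY2
  have h1 := GS_card hc h4 Y (PatG (fun l => sysS (b l) (g l) a) (fun l => flS (b l) (g l) a) β)
  have h2 := GS_card hc h4 Y fun _ => True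
  rw [Finset.filter_true, Finset.filter_true] at h2
  rw [h1, h2] at hY
  have h3 := cmp1 (GS u a Y) (fun m => ∀ l, (CrE (sgn (b l) * ((g l * m : ℕ) : ℤ)) ↔ β l = true))
      (fun D => PatG (fun l => sysS (b l) (g l) a) (fun l => flS (b l) (g l) a) β
        D.primeFactors) (by
    intro m hm hm1
    rw [GS, mem_filter] at hm
    unfold PatG
    refine forall_congr' fun l => ?_
    rw [trans hTRS hc h56 (hsq l) (hu l) hm.2.1 hm.2.2 hm1])
  have h5 : (1 : ℝ) ≤ ε / 2 * Y := by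
    rw [div_le_iff₀ hε] at hY2
    linarith
  rw [abs_le] at h3 hY ⊢
  constructor <;> linarith [h3.1, h3.2, hY.1, hY.2]

/-- **LAWS** -/
theorem t_LAWS : S_DS → S_HYS → S_TRS → S_LAWS := by
  intro hDS hHYS hTRS t b d hd0 hinj q r hq hm₀ β
  obtain ⟨m₀, hm₀⟩ := hm₀
  set u : ℕ := 56 * (q * ∏ l, d l) with hu
  have hP0 : 0 < ∏ l, d l := Finset.prod_pos fun l _ => hd0 l
  have hu0 : 0 < u := by positivity
  have h56 : 56 ∣ u := Dvd.intro _ rfl
  have h14 : 14 ∣ u := (by norm_num : 14 ∣ 56).trans h56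
  have hqu : q ∣ u := Dvd.dvd.mul_left (Dvd.intro _ rfl) _
  have hdu : ∀ l p, p.Prime → p ∣ d l → p ∣ u := fun l p _ hp =>
    Dvd.dvd.mul_left (Dvd.dvd.mul_left (hp.trans (Finset.dvd_prod_of_mem
      (fun l => d l) (Finset.mem_univ l))) _) _
  have hnat : ∀ D : ℕ, 0 < D → (TG q r (D : ℤ) ↔ D % q = r % q) := by
    intro D hD
    unfold TG
    constructor
    · rintro ⟨-, h2⟩
      exact_mod_cast h2
    · intro h2
      refine ⟨by exact_mod_cast hD, ?_⟩
      exact_mod_cast h2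
  have hm0 : 0 < m₀ := Nat.pos_of_ne_zero hm₀.1.ne_zero
  have key : Tendsto (fun X : ℕ =>
      ((cnt Int.natAbs (fun e => TG q r e ∧
        ∀ l, (CrE (sgn (b l) * (sqf (d l * e.natAbs) : ℤ)) ↔ β l = true)) X : ℕ) : ℝ) /
      ((cnt Int.natAbs (TG q r) X : ℕ) : ℝ)) atTop (𝓝 (amS (fun l => sgS (b l)) β)) := by
    refine ratio h14 hu0 (ht_natAbs u) (TG_cls hu0 hqu r)
      (Int.squarefree_natCast.2 hm₀.1) ((hnat m₀ hm0).2 hm₀.2)
      (fun e => ∀ l, (CrE (sgn (b l) * (sqf (d l * e.natAbs) : ℤ)) ↔ β l = true)) (amS (fun l => sgS (b l)) β) ?_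
    intro s g a hs hg hgu hc ε hε
    have hg0 : 0 < g := Nat.pos_of_ne_zero hg.ne_zero
    have hA : ∀ l, d l * g ≠ 0 := fun l => (Nat.mul_pos (hd0 l) hg0).ne'
    have hAu : ∀ l p, p.Prime → p ∣ d l * g → p ∣ u := by
      intro l p hp h
      rcases (Nat.Prime.dvd_mul hp).1 h with h | h
      · exact hdu l p hp h
      · exact h.trans hgu
    have hi : Function.Injective fun l => sqf (d l * g) := fun l l' hll =>
      hinj (sqf_inj hg0.ne' (hd0 l).ne' (hd0 l').ne' hll)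
    filter_upwards [base hDS hHYS hTRS hc h56 b (fun l => sqf (d l * g)) (fun l => sqf_sq _)
      (fun l p hp h => hAu l p hp (sqf_dvd hp h)) hi β ε hε] with Y hY
    refine le_of_eq_of_le ?_ hY
    refine congrArg (fun n : ℕ => |(n : ℝ) - amS (fun l => sgS (b l)) β * ((GS u a Y).card : ℝ)|) ?_
    refine flt _ _ _ _ _ fun m hm => ?_
    rw [GS, mem_filter] at hm
    have hcop : Nat.Coprime m u := by
      rw [Nat.coprime_iff_gcd_eq_one, Nat.gcd_comm, Nat.gcd_rec, hm.2.2]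
      exact hc.cop
    refine forall_congr' fun l => ?_
    rw [natAbs_sgm hs, ← mul_assoc, sqf_mul (hA l) hm.2.1 (cop_of (hAu l) hcop)]
  refine key.congr fun X => ?_
  rw [cnt_nat (T := TG q r) (fun e he => he.1) X,
    cnt_nat (T := fun e => TG q r e ∧ ∀ l, (CrE (sgn (b l) * (sqf (d l * e.natAbs) : ℤ)) ↔ β l = true))
      (fun e he => he.1.1) X]
  unfold nR
  refine congrArg₂ (fun a b : ℕ => (a : ℝ) / (b : ℝ)) ?_ ?_
  · refine flt _ _ _ _ _ fun D hD => ?_
    have h1 := hnat D (mem_Icc.1 hD).1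
    rw [h1, Int.natAbs_natCast]
    constructor
    · rintro ⟨h2, h3, h4⟩
      exact ⟨⟨h2, h3⟩, h4⟩
    · rintro ⟨⟨h2, h3⟩, h4⟩
      exact ⟨h2, h3, h4⟩
  · refine flt _ _ _ _ _ fun D hD => ?_
    have h1 := hnat D (mem_Icc.1 hD).1
    rw [h1]
    constructor
    · rintro ⟨h2, h3⟩
      exact ⟨⟨h2, h3⟩, trivial⟩
    · rintro ⟨⟨h2, h3⟩, h4⟩
      exact ⟨h2, h3⟩

end Pool.Agent.L0h2.JQ
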